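import Pool.Agent.Run7.h100.UN.Iface

/-! Piece PT of project UN (helper100, MP_8d2e9f_nt), proof by helper111. -/

set_option autoImplicit false

open Run7.h100.UN Polynomial
open scoped OnePoint

namespace Run7.h111.UN

theorem coeff_ne (P Q : Qb[X]) (d : ℕ) (hc : IsCoprime P Q) (hd : max P.natDegree Q.natDegree = d) :
    P.coeff d ≠ 0 ∨ Q.coeff d ≠ 0 := by
  by_contra hcon
  push Not at hcon
  obtain ⟨h1, h2⟩ := hcon
  rcases max_choice P.natDegree Q.natDegree with h | h
  · rw [h] at hd
    rw [← hd] at h1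
    have hP : P = 0 := leadingCoeff_eq_zero.1 h1
    subst hP
    have hd0 : d = 0 := by rw [← hd]; simp
    subst hd0
    have hQ : Q.natDegree = 0 := by
      have := le_max_right (0 : Qb[X]).natDegree Q.natDegree
      rw [h] at this
      simpa using this
    rw [eq_C_of_natDegree_eq_zero hQ, h2, C_0] at hc
    exact not_isCoprime_zero_zero hc
  · rw [h] at hd
    rw [← hd] at h2
    have hQ : Q = 0 := leadingCoeff_eq_zero.1 h2
    subst hQ
    have hd0 : d = 0 := by rw [← hd]; simp
    subst hd0
    have hP : P.natDegree = 0 := by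
      have := le_max_left P.natDegree (0 : Qb[X]).natDegree
      rw [h] at this
      simpa using this
    rw [eq_C_of_natDegree_eq_zero hP, h1, C_0] at hc
    exact not_isCoprime_zero_zero hc

theorem hom_zero (a : ℕ → Qb) (d : ℕ) (x : Qb) :
    ∑ i ∈ Finset.range (d + 1), a i * x ^ i * (0 : Qb) ^ (d - i) = a d * x ^ d := by
  rw [Finset.sum_range_succ, Finset.sum_eq_zero, zero_add]
  · simp
  · intro i hi
    have : d - i ≠ 0 := by
      have := Finset.mem_range.1 hi
      omega
    rw [zero_pow this, mul_zero]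

theorem hom_ne (P : Qb[X]) (d : ℕ) (h : P.natDegree ≤ d) (x y : Qb) (hy : y ≠ 0) :
    ∑ i ∈ Finset.range (d + 1), P.coeff i * x ^ i * y ^ (d - i) = y ^ d * P.eval (x / y) := by
  rw [eval_eq_sum_range' (Nat.lt_succ_of_le h), Finset.mul_sum]
  refine Finset.sum_congr rfl fun i hi => ?_
  have hi' : i ≤ d := Nat.lt_succ_iff.1 (Finset.mem_range.1 hi)
  have e : y ^ d = y ^ (d - i) * y ^ i := by rw [← pow_add, Nat.sub_add_cancel hi']
  rw [e, div_pow]
  field_simp

theorem t_PT : S_PT := by
  classical
  intro P Q d hc hd z hz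
  have hP : P.natDegree ≤ d := hd ▸ le_max_left _ _
  have hQ : Q.natDegree ≤ d := hd ▸ le_max_right _ _
  obtain ⟨x, y⟩ := z
  by_cases hy : y = 0
  · subst hy
    have hx : x ≠ 0 := fun h => hz (by rw [h]; rfl)
    have e : lft P.coeff Q.coeff d (x, 0) = (P.coeff d * x ^ d, Q.coeff d * x ^ d) := by
      unfold lft
      rw [hom_zero, hom_zero]
    have hxd : x ^ d ≠ 0 := pow_ne_zero _ hx
    rw [e]
    constructor
    · intro h
      rw [Prod.mk_eq_zero] at h
      rcases coeff_ne P Q d hc hd with h1 | h1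
      · exact (mul_ne_zero h1 hxd) h.1
      · exact (mul_ne_zero h1 hxd) h.2
    · have e1 : pt (x, 0) = ∞ := by simp [pt]
      rw [e1]
      show (if Q.coeff d = 0 then ∞ else ((P.coeff d / Q.coeff d : Qb) : OnePoint Qb)) = _
      unfold pt
      by_cases h : Q.coeff d = 0
      · simp [h]
      · have h2 : Q.coeff d * x ^ d ≠ 0 := mul_ne_zero h hxd
        simp only [if_neg h, if_neg h2]
        rw [mul_div_mul_right _ _ hxd]
  · have e : lft P.coeff Q.coeff d (x, y) =
        (y ^ d * P.eval (x / y), y ^ d * Q.eval (x / y)) := by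
      unfold lft
      simp only
      rw [hom_ne P d hP x y hy, hom_ne Q d hQ x y hy]
    have hyd : y ^ d ≠ 0 := pow_ne_zero _ hy
    rw [e]
    constructor
    · intro h
      rw [Prod.mk_eq_zero] at h
      have h1 : P.eval (x / y) = 0 := (mul_eq_zero.1 h.1).resolve_left hyd
      have h2 : Q.eval (x / y) = 0 := (mul_eq_zero.1 h.2).resolve_left hyd
      obtain ⟨A, B, hAB⟩ := hc
      have := congrArg (eval (x / y)) hAB
      rw [eval_add, eval_mul, eval_mul, h1, h2, mul_zero, mul_zero, add_zero, eval_one] at this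
      exact zero_ne_one this
    · have e1 : pt (x, y) = ((x / y : Qb) : OnePoint Qb) := by simp [pt, hy]
      rw [e1]
      show (if Q.eval (x / y) = 0 then ∞ else
        ((P.eval (x / y) / Q.eval (x / y) : Qb) : OnePoint Qb)) = _
      unfold pt
      by_cases h : Q.eval (x / y) = 0
      · simp [h]
      · have h2 : y ^ d * Q.eval (x / y) ≠ 0 := mul_ne_zero hyd h
        simp only [if_neg h, if_neg h2]
        rw [mul_div_mul_left _ _ hyd]

end Run7.h111.UN
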